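import Pool.Agent.Helper5.SR.St2

/-!
# Project SR, module TW4: mass with normalized imaginary part
-/

set_option autoImplicit false

namespace Pool.Agent.Helper77.SR

open Complex MeasureTheory Set Metric Filter Topology
open scoped Real
open Pool.Agent.Helper60.Rel (LH tc Admissible ClassS)
open Pool.Agent.Helper51.LT Helper5.SR

lemma isOpen_LH : IsOpen LH := isOpen_lt Complex.continuous_re continuous_const

lemma continuous_pt (Q k : ℕ) : Continuous (pt Q k) := by
  unfold pt; fun_prop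

lemma pt_eq (Q k : ℕ) (τ : ℝ) :
    pt Q k τ = ((-(((Q : ℝ) ^ k)⁻¹) : ℝ) : ℂ) + (τ : ℂ) * I := by
  unfold pt; push_cast; ring

lemma pt_re (Q k : ℕ) (τ : ℝ) : (pt Q k τ).re = -(((Q : ℝ) ^ k)⁻¹) := by
  rw [pt_eq, add_re, ofReal_re, mul_re, ofReal_re, ofReal_im, I_re, I_im]; ring

lemma pt_im (Q k : ℕ) (τ : ℝ) : (pt Q k τ).im = τ := by
  rw [pt_eq, add_im, ofReal_im, mul_im, ofReal_re, ofReal_im, I_re, I_im]; ring

lemma pt_mem {Q : ℕ} (hQ : 2 ≤ Q) (k : ℕ) (τ : ℝ) : pt Q k τ ∈ LH := by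
  change (pt Q k τ).re < 0
  rw [pt_re, neg_lt_zero]
  positivity

lemma pt_add (Q k : ℕ) (τ : ℝ) (n : ℤ) : pt Q k (τ + 2 * π * n) = pt Q k τ + 2 * π * I * n := by
  unfold pt; push_cast; ring

lemma per_int {C : ℝ} {T : ℂ → ℂ} (h : LC C T) (n : ℤ) :
    ∀ ζ ∈ LH, T (ζ + 2 * π * I * n) = T ζ + 2 * π * I * n := by
  have hmem : ∀ ζ ∈ LH, ∀ m : ℤ, ζ + 2 * π * I * m ∈ LH := by
    intro ζ hζ m
    change (ζ + 2 * π * I * m).re < 0
    have : (2 * π * I * m : ℂ).re = 0 := by
      simp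
    rw [add_re, this, add_zero]; exact hζ
  have hnat : ∀ m : ℕ, ∀ ζ ∈ LH, T (ζ + 2 * π * I * m) = T ζ + 2 * π * I * m := by
    intro m
    induction m with
    | zero => intro ζ _; simp
    | succ m ih =>
      intro ζ hζ
      have e : ζ + 2 * π * I * ((m + 1 : ℕ) : ℂ) = (ζ + 2 * π * I * m) + 2 * π * I := by
        push_cast; ring
      have hm := hmem ζ hζ m
      rw [Int.cast_natCast] at hm
      rw [e, h.2.2.1 _ hm, ih ζ hζ]
      push_cast; ring
  intro ζ hζ
  obtain ⟨m, rfl | rfl⟩ := n.eq_nat_or_neg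
  · simpa using hnat m ζ hζ
  · have h1 := hnat m (ζ + 2 * π * I * ((-(m : ℤ) : ℤ) : ℂ)) (hmem ζ hζ _)
    have e : ζ + 2 * π * I * ((-(m : ℤ) : ℤ) : ℂ) + 2 * π * I * m = ζ := by
      push_cast; ring
    rw [e] at h1
    rw [h1]; push_cast; ring

lemma deriv_per {C : ℝ} {T : ℂ → ℂ} (h : LC C T) (n : ℤ) (ζ : ℂ) (hζ : ζ ∈ LH) :
    deriv T (ζ + 2 * π * I * n) = deriv T ζ := by
  have h1 : (fun z => T (z + 2 * π * I * n)) =ᶠ[𝓝 ζ] fun z => T z + 2 * π * I * n := by
    filter_upwards [isOpen_LH.mem_nhds hζ] with z hz using per_int h n z hz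
  have h2 := h1.deriv_eq
  rw [deriv_comp_add_const, deriv_add_const] at h2
  exact h2

open Classical in
theorem hTw4 (hTw1 : StTw1) (hTw2 : StTw2) (hDis : StDis) : StTw4 := by
  intro C κ β Q Φ hC hQ hTM k D hD
  refine (hTw2 C κ β Q Φ hC hQ hTM k).trans ?_
  have hLC : LC (2 * C) (TW Φ Q k) := (hTw1 C Q Φ (by linarith) hQ hTM.1 k).1
  set T := TW Φ Q k with hT
  set D' : ℝ := 2 * C + 1 + 30 * k * Real.log Q with hD'
  have hQ1 : (1 : ℝ) ≤ Q := by exact_mod_cast (by omega : 1 ≤ Q)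
  have hlog : 0 ≤ Real.log Q := Real.log_nonneg hQ1
  have hD'0 : 0 ≤ D' := by positivity
  have hpi1 := Real.pi_gt_three
  have hpi2 := Real.pi_lt_d2
  have hDD : D = D' + 19 := by rw [hD, hD']; ring
  -- distance
  have hdist : ∀ τ : ℝ, |(T (pt Q k τ)).im - τ| ≤ D' := by
    intro τ
    have h1 : (-1 : ℝ) ≤ (pt Q k τ).re := by
      rw [pt_re]
      have : ((Q : ℝ) ^ k)⁻¹ ≤ 1 := inv_le_one_of_one_le₀ (one_le_pow₀ hQ1)
      linarith
    have h2 := hDis (2 * C) T hLC (pt Q k τ) h1 (pt_mem hQ k τ)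
    rw [pt_re, neg_neg, one_div, inv_inv, Real.log_pow] at h2
    have h3 : |(T (pt Q k τ) - pt Q k τ).im| ≤ ‖T (pt Q k τ) - pt Q k τ‖ := Complex.abs_im_le_norm _
    rw [sub_im, pt_im] at h3
    calc _ ≤ _ := h3
      _ ≤ _ := h2
      _ = D' := by rw [hD']; ring
  -- continuity
  have hgc : Continuous fun τ : ℝ => T (pt Q k τ) :=
    hLC.1.continuousOn.comp_continuous (continuous_pt Q k) (pt_mem hQ k)
  have hdc : Continuous fun τ : ℝ => ‖deriv T (pt Q k τ)‖ :=
    ((hLC.1.deriv isOpen_LH).continuousOn.comp_continuous (continuous_pt Q k) (pt_mem hQ k)).norm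
  set F : ℝ → ℝ := fun τ => if Deep C (T (pt Q k τ)) then ‖deriv T (pt Q k τ)‖ else 0 with hF
  set G : ℝ → ℝ := fun τ => if Deep C (T (pt Q k τ)) ∧ 0 ≤ (T (pt Q k τ)).im ∧
    (T (pt Q k τ)).im < 2 * π then ‖deriv T (pt Q k τ)‖ else 0 with hG
  have hG0 : ∀ τ, 0 ≤ G τ := by
    intro τ; rw [hG]; dsimp only; split_ifs <;> positivity
  have hmD : MeasurableSet {τ : ℝ | Deep C (T (pt Q k τ))} := by
    have hre : Measurable fun τ : ℝ => (T (pt Q k τ)).re := (Complex.continuous_re.comp hgc).measurable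
    exact (measurableSet_le measurable_const hre).inter (measurableSet_le hre measurable_const)
  have him : Measurable fun τ : ℝ => (T (pt Q k τ)).im := (Complex.continuous_im.comp hgc).measurable
  have hFm : Measurable F := Measurable.ite hmD hdc.measurable measurable_const
  have hGm : Measurable G := Measurable.ite
    (hmD.inter ((measurableSet_le measurable_const him).inter (measurableSet_lt him measurable_const)))
    hdc.measurable measurable_const
  have hFi : ∀ a b, IntervalIntegrable F volume a b := by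
    intro a b
    refine (hdc.intervalIntegrable a b).mono_fun hFm.aestronglyMeasurable ?_
    filter_upwards with τ
    rw [hF]; dsimp only; split_ifs <;> simp
  have hGi : ∀ a b, IntervalIntegrable G volume a b := by
    intro a b
    refine (hdc.intervalIntegrable a b).mono_fun hGm.aestronglyMeasurable ?_
    filter_upwards with τ
    rw [hG]; dsimp only; split_ifs <;> simp
  -- support
  have hsupp : ∀ τ, G τ ≠ 0 → -D' ≤ τ ∧ τ ≤ 2 * π + D' := by
    intro τ hτ
    have h1 : Deep C (T (pt Q k τ)) ∧ 0 ≤ (T (pt Q k τ)).im ∧ (T (pt Q k τ)).im < 2 * π := by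
      by_contra hcon
      apply hτ; rw [hG]; dsimp only; rw [if_neg hcon]
    have h2 := abs_le.mp (hdist τ)
    constructor <;> linarith [h1.2.1, h1.2.2, h2.1, h2.2]
  obtain ⟨N, hN⟩ := exists_nat_ge (D + 2)
  have hN0 : (0 : ℝ) ≤ N := Nat.cast_nonneg N
  -- periodicity
  have hper : ∀ (τ : ℝ) (n : ℤ), T (pt Q k (τ + 2 * π * n)) = T (pt Q k τ) + 2 * π * I * n := by
    intro τ n
    rw [pt_add, per_int hLC n _ (pt_mem hQ k τ)]
  have hderper : ∀ (τ : ℝ) (n : ℤ), deriv T (pt Q k (τ + 2 * π * n)) = deriv T (pt Q k τ) := by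
    intro τ n
    rw [pt_add, deriv_per hLC n _ (pt_mem hQ k τ)]
  -- pointwise inequality
  have hpw : ∀ τ ∈ Icc (0 : ℝ) (2 * π),
      F τ ≤ ∑ i ∈ Finset.range (2 * N), G (τ + 2 * π * ((i : ℝ) - N)) := by
    intro τ hτ
    set y := (T (pt Q k τ)).im with hy
    set n : ℤ := -⌊y / (2 * π)⌋ with hn
    have h2pi : (0 : ℝ) < 2 * π := by positivity
    have hfl1 := Int.floor_le (y / (2 * π))
    have hfl2 := Int.lt_floor_add_one (y / (2 * π))
    have e1 : (T (pt Q k (τ + 2 * π * n))).im = y + 2 * π * n := by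
      rw [hper, add_im, ← hy]
      congr 1
      simp
    have hlo : 0 ≤ y + 2 * π * n := by
      rw [hn]; push_cast
      rw [le_div_iff₀ h2pi] at hfl1
      linarith
    have hhi : y + 2 * π * n < 2 * π := by
      rw [hn]; push_cast
      rw [div_lt_iff₀ h2pi] at hfl2
      linarith
    have hd := abs_le.mp (hdist (τ + 2 * π * n))
    rw [e1] at hd
    have hnlo : -(N : ℝ) ≤ n := by
      by_contra hcon
      push Not at hcon
      have : 2 * π * n ≤ 2 * π * (-(N : ℝ)) := by gcongr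
      nlinarith [hτ.1, hτ.2, hd.1, hd.2]
    have hnhi : (n : ℝ) < N := by
      by_contra hcon
      push Not at hcon
      have : 2 * π * (N : ℝ) ≤ 2 * π * n := by gcongr
      nlinarith [hτ.1, hτ.2, hd.1, hd.2]
    have hnlo' : -(N : ℤ) ≤ n := by exact_mod_cast hnlo
    have hnhi' : n < (N : ℤ) := by exact_mod_cast hnhi
    obtain ⟨i, hi⟩ : ∃ i : ℕ, (i : ℤ) = n + N := ⟨(n + N).toNat, by omega⟩
    have hiR : (i : ℝ) - N = n := by
      have : (i : ℝ) = n + N := by exact_mod_cast hi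
      rw [this]; ring
    have himem : i ∈ Finset.range (2 * N) := by
      rw [Finset.mem_range]; omega
    refine le_trans ?_ (Finset.single_le_sum (f := fun i : ℕ => G (τ + 2 * π * ((i : ℝ) - N)))
      (fun j _ => hG0 _) himem)
    rw [hiR]
    have hdeep : Deep C (T (pt Q k (τ + 2 * π * n))) ↔ Deep C (T (pt Q k τ)) := by
      have : (T (pt Q k (τ + 2 * π * n))).re = (T (pt Q k τ)).re := by
        rw [hper, add_re]
        simp
      unfold Deep; rw [this]
    rw [hF, hG]; dsimp only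
    by_cases hdp : Deep C (T (pt Q k τ))
    · rw [if_pos hdp, if_pos ⟨hdeep.mpr hdp, by rw [e1]; exact hlo, by rw [e1]; exact hhi⟩,
        hderper]
    · rw [if_neg hdp, if_neg (fun h => hdp (hdeep.mp h.1))]
  -- integrate
  have hsum : ∫ τ in (0 : ℝ)..(2 * π), ∑ i ∈ Finset.range (2 * N), G (τ + 2 * π * ((i : ℝ) - N)) =
      ∫ τ in (2 * π * (-(N : ℝ)))..(2 * π * N), G τ := by
    rw [intervalIntegral.integral_finsetSum]
    · have h1 := intervalIntegral.sum_integral_adjacent_intervals (f := G) (μ := volume)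
        (a := fun i : ℕ => 2 * π * ((i : ℝ) - N)) (n := 2 * N) (fun i _ => hGi _ _)
      have e0 : 2 * π * (((0 : ℕ) : ℝ) - N) = 2 * π * (-(N : ℝ)) := by push_cast; ring
      have e2 : 2 * π * (((2 * N : ℕ) : ℝ) - N) = 2 * π * N := by push_cast; ring
      rw [e0, e2] at h1
      rw [← h1]
      refine Finset.sum_congr rfl (fun i _ => ?_)
      rw [intervalIntegral.integral_comp_add_right (fun τ => G τ)]
      congr 1
      · ring
      · push_cast; ring
    · intro i _
      have := (hGi (0 + 2 * π * ((i : ℝ) - N)) (2 * π + 2 * π * ((i : ℝ) - N))).comp_add_right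
        (2 * π * ((i : ℝ) - N))
      simpa using this
  have hsplit : ∫ τ in (2 * π * (-(N : ℝ)))..(2 * π * N), G τ = ∫ τ in (-D)..D, G τ := by
    have hz : ∀ τ, (τ ≤ -D ∨ D ≤ τ) → G τ = 0 := by
      intro τ hτ
      by_contra hcon
      have := hsupp τ hcon
      rcases hτ with h | h <;> linarith [this.1, this.2]
    have hND : D ≤ 2 * π * N := by nlinarith
    rw [← intervalIntegral.integral_add_adjacent_intervals (hGi _ (-D)) (hGi (-D) _),
      ← intervalIntegral.integral_add_adjacent_intervals (hGi (-D) D) (hGi D _)]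
    have e1 : ∫ τ in (2 * π * (-(N : ℝ)))..(-D), G τ = 0 := by
      rw [intervalIntegral.integral_congr (g := fun _ => (0 : ℝ))]
      · simp
      · intro τ hτ
        rw [uIcc_of_le (by linarith)] at hτ
        exact hz τ (Or.inl hτ.2)
    have e2 : ∫ τ in D..(2 * π * N), G τ = 0 := by
      rw [intervalIntegral.integral_congr (g := fun _ => (0 : ℝ))]
      · simp
      · intro τ hτ
        rw [uIcc_of_le (by linarith)] at hτ
        exact hz τ (Or.inr hτ.1)
    rw [e1, e2]; ring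
  calc ∫ τ in (0 : ℝ)..(2 * π), F τ
      ≤ ∫ τ in (0 : ℝ)..(2 * π), ∑ i ∈ Finset.range (2 * N), G (τ + 2 * π * ((i : ℝ) - N)) := by
        refine intervalIntegral.integral_mono_on (by positivity) (hFi _ _) ?_ hpw
        have hss : ∀ i ∈ Finset.range (2 * N), IntervalIntegrable
            (fun τ => G (τ + 2 * π * ((i : ℝ) - N))) volume 0 (2 * π) := ?_
        · have := IntervalIntegrable.sum (Finset.range (2 * N)) hss
          simpa only [Finset.sum_fn] using this
        intro i _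
        have := (hGi (0 + 2 * π * ((i : ℝ) - N)) (2 * π + 2 * π * ((i : ℝ) - N))).comp_add_right
          (2 * π * ((i : ℝ) - N))
        simpa using this
    _ = ∫ τ in (-D)..D, G τ := by rw [hsum, hsplit]

end Pool.Agent.Helper77.SR
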