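import Pool.Agent.Helper77.SR.PerA

/-!
# Project SR, module PER: the perturbation
-/

set_option autoImplicit false

namespace Pool.Agent.Helper77.SR

open Complex MeasureTheory Set Metric Filter Topology
open scoped Real
open Pool.Agent.Helper60.Rel (LH tc Admissible ClassS)
open Pool.Agent.Helper51.LT Helper5.SR

theorem hPer (hWin : StWin) (hQwr : StQwr) (hTcd : StTcd) (hD2 : StD2) : StPer := by
  intro m α v hαv f R hR hf hf0 θ M s₀ hθ hM hs₀ η r j hη hr0 hr1
  obtain ⟨c₁, C₇, n₀, hc₁, hC₇, hW⟩ := hWin m θ hθ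
  have hM1 : (1 : ℝ) ≤ M := by exact_mod_cast hM
  have hlogM : 0 ≤ Real.log M := Real.log_nonneg hM1
  set A : ℝ := ‖deriv f 0‖ + 1 with hA
  have hA1 : 1 ≤ A := by rw [hA]; linarith [norm_nonneg (deriv f 0)]
  set C₈ : ℝ := |Real.log (3 * A * (2 * M) ^ 4)| + |4 - v| with hC₈
  have hC₈0 : 0 ≤ C₈ := by positivity
  -- uniform continuity of `f` on the closed disc
  have hfc : ContinuousOn f (closedBall 0 1) :=
    hf.1.continuousOn.mono (closedBall_subset_ball hR)
  have hcpt : IsCompact (closedBall (0 : ℂ) 1) := isCompact_closedBall 0 1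
  obtain ⟨δ, hδ, hδf⟩ := Metric.uniformContinuousOn_iff.mp
    (hcpt.uniformContinuousOn_of_continuous hfc) (η / 4) (by positivity)
  obtain ⟨B, hB⟩ := hcpt.exists_bound_of_continuousOn hfc
  have hr1' : 0 < (1 - r) / 2 := by linarith
  set S' : ℝ := (|B| + η / 4) / ((1 - r) / 2) with hS'
  have hS'0 : 0 ≤ S' := by positivity
  obtain ⟨K₀, hK₀⟩ : ∃ K₀ : ℕ, ∀ k ≥ K₀, r ^ k * S' ≤ η / 4 := by
    have h1 : Tendsto (fun k : ℕ => r ^ k * S') atTop (𝓝 0) := by
      simpa using (tendsto_pow_atTop_nhds_zero_of_lt_one hr0 hr1).mul_const S'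
    exact eventually_atTop.mp (h1.eventually (Iic_mem_nhds (by positivity)))
  set C₉ : ℝ := 200 * M * (1 + Real.log M) + 4 + C₇ * (1 + C₈) with hC₉
  have hC₉1 : 1 ≤ C₉ := by
    have h1 : 0 ≤ 200 * M * (1 + Real.log M) := by positivity
    have h2 : 0 ≤ C₇ * (1 + C₈) := by positivity
    linarith
  have hev := (ev_q (C₇ * (1 + C₈)) (C₇ * C₈) s₀ hs₀).and
    ((ev_main α v c₁ C₉ ((j : ℝ) + 1) hαv hc₁ hC₉1 (by positivity)).and
     ((eventually_ge_atTop (n₀ : ℝ)).and ((eventually_ge_atTop (j : ℝ)).and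
      ((eventually_ge_atTop (K₀ : ℝ)).and (eventually_gt_atTop (2 / δ))))))
  obtain ⟨N₀, hN₀⟩ := eventually_atTop.mp hev
  refine ⟨N₀, fun N F hN hN1 hMass => ?_⟩
  obtain ⟨hE1, hE2, hE3, hE4, hE5, hE6⟩ := hN₀ N hN
  obtain ⟨hF, hF0, hFd, hFc, hFm⟩ := hMass
  have hNpos : 0 < N := by linarith
  have hlogN : 0 ≤ Real.log N := Real.log_nonneg hN1
  set σ : ℝ := N⁻¹ / M with hσ
  have hσ0 : 0 < σ := by positivity
  have hσi : 1 / σ = N * M := by rw [hσ]; field_simp
  have hσN : σ ≤ 1 / N := by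
    rw [hσ, ← one_div]; exact div_le_self (by positivity) hM1
  have hσ1 : σ ≤ 1 := hσN.trans (by rw [div_le_one hNpos]; exact hN1)
  set w : ℝ := Real.exp (-σ) with hw
  have hw0 : 0 < w := Real.exp_pos _
  have hw1 : w < 1 := by rw [hw, Real.exp_lt_one_iff]; linarith
  set G : ℂ → ℂ := fun z => F ((w : ℂ) * z) with hG
  have hGu : Un G (ball 0 (1 + σ)) := un_G hF σ
  set μ : ℝ := N ^ v / 3 with hμ
  have hμ0 : 0 < μ := by positivity
  set S : ℝ := A * (2 * M * N) ^ 4 with hS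
  have hS0 : 0 < S := by positivity
  have hGS : ∀ z : ℂ, ‖z‖ = 1 → ‖deriv G z‖ ≤ S := by
    intro z hz
    refine (norm_deriv_G_le hD2 hF hσ0 hσ1 hz).trans ?_
    have e1 : 2 / σ = 2 * M * N := by
      rw [← mul_one_div, hσi]; ring
    rw [e1, hS]
    gcongr
    rw [hA]; linarith
  set q : ℕ := ⌈C₇ * (1 + C₈) + C₇ * C₈ * Real.log N⌉₊ with hq
  set L : ℕ := ⌈100 / σ * (1 + Real.log (1 / σ))⌉₊ with hL
  have hLlow : 100 / σ * (1 + Real.log (1 / σ)) ≤ L := Nat.le_ceil _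
  have hlogσ : Real.log (1 / σ) = Real.log N + Real.log M := by
    rw [hσi, Real.log_mul (by positivity) (by positivity)]
  have hL2 : 100 * (N * M) ≤ L := by
    refine le_trans ?_ hLlow
    have : 100 / σ = 100 * (N * M) := by rw [← mul_one_div, hσi]
    rw [this, hlogσ]
    have h1 : (1 : ℝ) ≤ 1 + (Real.log N + Real.log M) := by linarith
    calc 100 * (N * M) = 100 * (N * M) * 1 := by ring
      _ ≤ _ := by gcongr
  have hNM : N ≤ N * M := le_mul_of_one_le_right hNpos.le hM1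
  have hNL : N ≤ L := by linarith only [hNM, hL2, hNpos]
  have hρ0 : 0 < N ^ (-s₀) := by positivity
  have hρ1 : N ^ (-s₀) ≤ 1 := Real.rpow_le_one_of_one_le_of_nonpos hN1 (by linarith)
  have hlogS : Real.log (S / μ) ≤ C₈ * (1 + Real.log N) := by
    have e1 : S / μ = (3 * A * (2 * M) ^ 4) * N ^ (4 - v) := by
      rw [hS, hμ, Real.rpow_sub hNpos]
      have : N ^ (4 : ℝ) = N ^ (4 : ℕ) := by
        rw [← Real.rpow_natCast]; norm_num
      rw [this]
      field_simp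
    rw [e1, Real.log_mul (by positivity) (by positivity), Real.log_rpow hNpos]
    have h1 : Real.log (3 * A * (2 * M) ^ 4) ≤ C₈ := by
      rw [hC₈]
      linarith [le_abs_self (Real.log (3 * A * (2 * M) ^ 4)), abs_nonneg (4 - v)]
    have h2 : 4 - v ≤ C₈ := by
      rw [hC₈]
      linarith [abs_nonneg (Real.log (3 * A * (2 * M) ^ 4)), le_abs_self (4 - v)]
    have h3 := mul_le_mul_of_nonneg_right h2 hlogN
    linarith only [h3, h1]
  have hqlow : C₇ * (1 + Real.log (S / μ)) ≤ q := by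
    refine le_trans ?_ (Nat.le_ceil _)
    have : C₇ * (1 + Real.log (S / μ)) ≤ C₇ * (1 + C₈ * (1 + Real.log N)) := by gcongr
    linarith
  obtain ⟨u, hu1, hu0, hu2, hu3, hu4⟩ := hW σ G L L q (N ^ (-s₀)) μ S hσ0 hσ1 hGu hGS hμ0 hρ0 hρ1
    hE1 hqlow (fun l => int_G F hσ1 _ _ (by positivity) (hFm l)) hLlow
    (by
      calc (1 : ℝ) = 1 / σ * σ := by field_simp
        _ ≤ L * σ := by
          gcongr
          rw [hσi]; linarith)
    (by exact_mod_cast hE3.trans hNL)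
  set n : ℕ := L + L + q + 1 with hn
  have hnN : N ≤ (n : ℝ) := by
    rw [hn]; push_cast
    have : (0 : ℝ) ≤ q := Nat.cast_nonneg q
    linarith
  have hnup : (n : ℝ) ≤ C₉ * N * (1 + Real.log N) := by
    have h1 : (L : ℝ) ≤ 100 * (N * M) * (1 + (Real.log N + Real.log M)) + 1 := by
      have h2 := (Nat.ceil_lt_add_one (show 0 ≤ 100 / σ * (1 + Real.log (1 / σ)) by
        rw [hlogσ]; positivity)).le
      rw [← hL] at h2
      have : 100 / σ = 100 * (N * M) := by rw [← mul_one_div, hσi]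
      rw [this, hlogσ] at h2
      exact h2
    have h2 : (q : ℝ) ≤ C₇ * (1 + C₈) + C₇ * C₈ * Real.log N + 1 :=
      (Nat.ceil_lt_add_one (by positivity)).le
    have h3 : 1 + (Real.log N + Real.log M) ≤ (1 + Real.log M) * (1 + Real.log N) := by
      linarith only [mul_nonneg hlogN hlogM]
    have h4 : 100 * (N * M) * (1 + (Real.log N + Real.log M)) ≤
        100 * (N * M) * ((1 + Real.log M) * (1 + Real.log N)) := by gcongr
    have h5 : 1 ≤ N * (1 + Real.log N) := by linarith only [mul_nonneg hNpos.le hlogN, hN1]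
    have h6 : C₇ * (1 + C₈) + C₇ * C₈ * Real.log N ≤ C₇ * (1 + C₈) * (1 + Real.log N) := by
      linarith only [mul_nonneg (show (0 : ℝ) ≤ C₇ by linarith only [hC₇]) hlogN]
    have h7 : C₇ * (1 + C₈) * (1 + Real.log N) ≤ C₇ * (1 + C₈) * (N * (1 + Real.log N)) := by
      gcongr
      exact le_mul_of_one_le_left (by linarith only [hlogN]) hN1
    rw [hn, hC₉]; push_cast
    linarith only [h1, h4, h2, h6, h7, h5]
  have hn1 : (1 : ℝ) ≤ n := hN1.trans hnN
  -- the radius `r₃`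
  set T : ℝ := 2 * ((n : ℝ) + 2 * m + 1) with hT
  have hT2 : 2 * (n : ℝ) ≤ T := by rw [hT]; have : (0 : ℝ) ≤ m := Nat.cast_nonneg m; linarith
  have hTpos : 0 < T := by linarith
  set r₃ : ℝ := 1 - 1 / T with hr₃
  have hTinv : 1 / T ≤ 1 / 2 := by
    apply one_div_le_one_div_of_le (by norm_num); linarith
  have hTinv0 : 0 < 1 / T := by positivity
  have hr₃0 : 0 < r₃ := by rw [hr₃]; linarith
  have hr₃1 : r₃ < 1 := by rw [hr₃]; linarith
  have hr₃p : 1 / 2 ≤ r₃ ^ (n + 2 * m) := by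
    have h1 := one_add_mul_le_pow (a := -(1 / T)) (by linarith) (n + 2 * m)
    have h2 : ((n + 2 * m : ℕ) : ℝ) * (1 / T) ≤ 1 / 2 := by
      rw [mul_one_div, div_le_iff₀ hTpos, hT]; push_cast; linarith
    rw [hr₃, sub_eq_add_neg]
    refine le_trans ?_ h1
    linarith
  set H : ℂ → ℂ := fun z => G z + u z with hH
  have hHd : DifferentiableOn ℂ H (ball 0 (1 + σ)) := hGu.1.add hu1
  have hHd1 : DifferentiableOn ℂ H (ball 0 1) := hHd.mono (ball_subset_ball (by linarith))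
  have hsc : ∀ (ρ : ℝ) (z : ℂ), ‖(r₃ : ℂ) * z‖ = r₃ * ‖z‖ := fun _ z => by
    rw [norm_mul, Complex.norm_of_nonneg hr₃0.le]
  have hmapR : ∀ z ∈ ball (0 : ℂ) (1 / r₃), (r₃ : ℂ) * z ∈ ball (0 : ℂ) 1 := by
    intro z hz
    rw [mem_ball_zero_iff] at hz ⊢
    rw [hsc 0]
    calc r₃ * ‖z‖ < r₃ * (1 / r₃) := by gcongr
      _ = 1 := by field_simp
  have hRinv : 1 < 1 / r₃ := by rw [lt_div_iff₀ hr₃0]; linarith
  set f₁ : ℂ → ℂ := fun z => H (r₃ * z) with hf₁
  have hf₁R : Un f₁ (ball 0 (1 / r₃)) := by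
    constructor
    · exact hHd1.comp (differentiable_id.const_mul _).differentiableOn hmapR
    · intro z hz z' hz' h
      have h1 := hu2 (ball_subset_closedBall (hmapR z hz)) (ball_subset_closedBall (hmapR z' hz')) h
      have : (r₃ : ℂ) ≠ 0 := by exact_mod_cast hr₃0.ne'
      exact mul_left_cancel₀ this h1
  have hf₁0 : f₁ 0 = 0 := by
    rw [hf₁]; dsimp only
    rw [hH]; dsimp only
    rw [hG]; dsimp only
    rw [mul_zero, hu0, mul_zero, hF0, add_zero]
  refine ⟨f₁, ⟨⟨1 / r₃, hRinv, hf₁R⟩, hf₁0⟩, ?_, ?_⟩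
  · -- closeness
    intro z hz
    have hz3 : ‖(r₃ : ℂ) * z‖ ≤ r := by
      rw [hsc 0]; exact (mul_le_of_le_one_left (norm_nonneg z) hr₃1.le).trans hz
    have hGc : ∀ y : ℂ, ‖y‖ ≤ (1 + r) / 2 → ‖(w : ℂ) * y‖ ≤ (1 + r) / 2 := by
      intro y hy
      rw [norm_mul, Complex.norm_of_nonneg hw0.le]
      exact (mul_le_of_le_one_left (norm_nonneg y) hw1.le).trans hy
    have hGb : ∀ y : ℂ, ‖y‖ ≤ (1 + r) / 2 → ‖G y‖ ≤ |B| + η / 4 := by
      intro y hy
      have h1 := hFc _ (hGc y hy)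
      have h2 : ‖f ((w : ℂ) * y)‖ ≤ B := hB _ (by
        rw [mem_closedBall_zero_iff]; exact (hGc y hy).trans (by linarith))
      calc ‖G y‖ = ‖(F ((w : ℂ) * y) - f ((w : ℂ) * y)) + f ((w : ℂ) * y)‖ := by
            rw [sub_add_cancel]
        _ ≤ _ := norm_add_le _ _
        _ ≤ η / 4 + |B| := add_le_add h1 (h2.trans (le_abs_self _))
        _ = _ := add_comm _ _
    have hGd : ∀ y : ℂ, ‖y‖ ≤ r → ‖deriv G y‖ ≤ S' := by
      intro y hy
      have hsub : ∀ x ∈ closedBall y ((1 - r) / 2), ‖x‖ ≤ (1 + r) / 2 := by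
        intro x hx
        rw [mem_closedBall, dist_eq_norm] at hx
        calc ‖x‖ = ‖(x - y) + y‖ := by rw [sub_add_cancel]
          _ ≤ _ := norm_add_le _ _
          _ ≤ (1 - r) / 2 + r := add_le_add hx hy
          _ = _ := by ring
      refine Complex.norm_deriv_le_of_forall_mem_sphere_norm_le hr1' ?_ ?_
      · apply DifferentiableOn.diffContOnCl_ball (U := ball 0 (1 + σ)) hGu.1
        intro x hx
        rw [mem_ball_zero_iff]
        have := hsub x hx
        linarith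
      · intro x hx
        exact hGb x (hsub x (sphere_subset_closedBall hx))
    have hub : ‖u (r₃ * z)‖ ≤ η / 4 := by
      refine (hu3 r S' hr0 hr1 hGd _ hz3).trans (hK₀ L ?_)
      exact_mod_cast hE5.trans hNL
    have hz1 : ‖z‖ ≤ 1 := hz.trans hr1.le
    have hwz : ‖(w : ℂ) * (r₃ * z)‖ ≤ r := by
      rw [norm_mul, Complex.norm_of_nonneg hw0.le]
      exact (mul_le_of_le_one_left (norm_nonneg _) hw1.le).trans hz3
    have hd : dist ((w : ℂ) * (r₃ * z)) z < δ := by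
      have e1 : (w : ℂ) * (r₃ * z) - z = -(((1 - w * r₃ : ℝ) : ℂ) * z) := by push_cast; ring
      have hw2 : 1 - σ ≤ w := by
        have := Real.add_one_le_exp (-σ); rw [hw]; linarith
      have h1 : 0 ≤ 1 - w * r₃ := by
        linarith only [mul_le_one₀ hw1.le hr₃0.le hr₃1.le]
      have hTN : 1 / T ≤ 1 / N / 2 := by
        rw [div_div, mul_comm N 2]
        apply one_div_le_one_div_of_le (by positivity); linarith
      have h2 : 1 - w * r₃ ≤ σ + 1 / T := by
        rw [hr₃]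
        linarith only [hw2, mul_le_of_le_one_left hTinv0.le hw1.le]
      have h3 : 2 / N < δ := by
        rw [div_lt_iff₀ hNpos]
        rw [div_lt_iff₀ hδ] at hE6
        linarith
      have h4 : 2 / N = 2 * (1 / N) := by ring
      have h5 : 0 < 1 / N := by positivity
      rw [dist_eq_norm, e1, norm_neg, norm_mul, Complex.norm_of_nonneg h1]
      have h6 : (1 - w * r₃) * ‖z‖ ≤ 1 - w * r₃ := mul_le_of_le_one_right h1 hz1
      linarith only [h6, h2, hσN, hTN, h3, h4, h5]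
    have hff : ‖f ((w : ℂ) * (r₃ * z)) - f z‖ < η / 4 := by
      rw [← dist_eq_norm]
      refine hδf _ ?_ _ ?_ hd
      · rw [mem_closedBall_zero_iff]; exact hwz.trans hr1.le
      · rw [mem_closedBall_zero_iff]; exact hz1
    have hFF : ‖F ((w : ℂ) * (r₃ * z)) - f ((w : ℂ) * (r₃ * z))‖ ≤ η / 4 :=
      hFc _ (hwz.trans (by linarith))
    have e2 : f₁ z - f z = (F ((w : ℂ) * (r₃ * z)) - f ((w : ℂ) * (r₃ * z))) +
        (f ((w : ℂ) * (r₃ * z)) - f z) + u (r₃ * z) := by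
      rw [hf₁]; dsimp only
      rw [hH]; dsimp only
      rw [hG]; dsimp only
      ring
    rw [e2]
    calc _ ≤ ‖(F ((w : ℂ) * (r₃ * z)) - f ((w : ℂ) * (r₃ * z))) +
          (f ((w : ℂ) * (r₃ * z)) - f z)‖ + ‖u (r₃ * z)‖ := norm_add_le _ _
      _ ≤ (η / 4 + η / 4) + η / 4 := add_le_add ((norm_add_le _ _).trans (add_le_add hFF hff.le)) hub
      _ ≤ η := by linarith
  · -- the event
    have hf₁d : DifferentiableOn ℂ f₁ (ball 0 1) := hf₁R.1.mono (ball_subset_ball hRinv.le)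
    refine hQwr m α j n f₁ hf₁d (by exact_mod_cast hE4.trans hnN) (by exact_mod_cast hn1) ?_
    intro c hc hck
    obtain ⟨i, hi, hi2⟩ := window_scale hTcd m H hHd1 n (c₁ * μ / (n : ℝ)) (by positivity) hu4 r₃
      hr₃0 hr₃1.le hr₃p c hc hck
    exact ⟨i, hi, (hE2 n hnN hnup).trans hi2⟩

end Pool.Agent.Helper77.SR
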