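import Pool.Agent.Helper5.SR.St4

/-!
# Project SR, module PER, preliminaries
-/

set_option autoImplicit false

namespace Pool.Agent.Helper77.SR

open Complex MeasureTheory Set Metric Filter Topology
open scoped Real
open Pool.Agent.Helper60.Rel (LH tc Admissible ClassS)
open Pool.Agent.Helper51.LT Helper5.SR

lemma ev_q (a b s : ℝ) (hs : 0 < s) :
    ∀ᶠ N : ℝ in atTop, ((⌈a + b * Real.log N⌉₊ : ℕ) : ℝ) * (N ^ (-s)) ^ 2 ≤ 1 := by
  have h1 : (fun N : ℝ => (|a| + 1) + |b| * Real.log N) =o[atTop] fun N => N ^ (2 * s) := by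
    refine Asymptotics.IsLittleO.add ?_ ?_
    · exact Asymptotics.isLittleO_const_left.2
        (Or.inr (tendsto_norm_atTop_atTop.comp (tendsto_rpow_atTop (by positivity))))
    · exact (isLittleO_log_rpow_atTop (by positivity)).const_mul_left _
  have h2 := h1.def (c := 1) one_pos
  filter_upwards [h2, eventually_ge_atTop 1] with N h2 hN
  have hlog := Real.log_nonneg hN
  have hpos : 0 < N := by linarith
  have h3 : ((⌈a + b * Real.log N⌉₊ : ℕ) : ℝ) ≤ N ^ (2 * s) := by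
    have h4 : ((⌈a + b * Real.log N⌉₊ : ℕ) : ℝ) ≤ ((⌈|a| + |b| * Real.log N⌉₊ : ℕ) : ℝ) := by
      gcongr <;> exact le_abs_self _
    have h5 := (Nat.ceil_lt_add_one (show 0 ≤ |a| + |b| * Real.log N by positivity)).le
    rw [Real.norm_of_nonneg (by positivity), Real.norm_of_nonneg (by positivity), one_mul] at h2
    linarith
  calc _ ≤ N ^ (2 * s) * (N ^ (-s)) ^ 2 := by gcongr
    _ = 1 := by
      rw [← Real.rpow_natCast, ← Real.rpow_mul hpos.le, ← Real.rpow_add hpos]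
      have : 2 * s + -s * ((2 : ℕ) : ℝ) = 0 := by push_cast; ring
      rw [this, Real.rpow_zero]

lemma ev_main (α v c₁ C₉ K : ℝ) (h : α + 1 < v) (hc : 0 < c₁) (hC : 1 ≤ C₉) (hK : 0 ≤ K) :
    ∀ᶠ N : ℝ in atTop, ∀ n : ℝ, N ≤ n → n ≤ C₉ * N * (1 + Real.log N) →
      K * n ^ α ≤ c₁ * (N ^ v / 3) / n / 2 := by
  set β : ℝ := α + 1 with hβ
  have h1 := isLittleO_log_rpow_rpow_atTop (|β|) (show 0 < v - β by linarith)
  have hc2 : 0 < c₁ / 6 / ((K + 1) * C₉ ^ |β| * 2 ^ |β|) := by positivity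
  have h2 := h1.def hc2
  filter_upwards [h2, eventually_ge_atTop (Real.exp 1)] with N h2 hN n hn1 hn2
  have he : (1 : ℝ) ≤ Real.exp 1 := Real.one_le_exp zero_le_one
  have hpos : 0 < N := by linarith
  have hnpos : 0 < n := by linarith
  have hlog : 1 ≤ Real.log N := by
    rw [← Real.log_exp 1]; exact Real.log_le_log (Real.exp_pos 1) hN
  have hb0 : 0 ≤ |β| := abs_nonneg _
  rw [Real.norm_of_nonneg (by positivity), Real.norm_of_nonneg (by positivity)] at h2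
  -- bound of `n ^ β`
  have h3 : n ^ β ≤ (C₉ * (1 + Real.log N)) ^ |β| * N ^ β := by
    have hb1 : 1 ≤ C₉ * (1 + Real.log N) := by nlinarith
    rcases le_or_gt 0 β with hβ0 | hβ0
    · rw [abs_of_nonneg hβ0, ← Real.mul_rpow (by positivity) hpos.le]
      refine Real.rpow_le_rpow hnpos.le ?_ hβ0
      linarith
    · calc n ^ β ≤ N ^ β := Real.rpow_le_rpow_of_nonpos hpos hn1 hβ0.le
        _ = 1 * N ^ β := (one_mul _).symm
        _ ≤ _ := by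
          gcongr
          exact Real.one_le_rpow hb1 hb0
  have h4 : (C₉ * (1 + Real.log N)) ^ |β| ≤ C₉ ^ |β| * 2 ^ |β| * Real.log N ^ |β| := by
    rw [← Real.mul_rpow (by positivity) (by positivity),
      ← Real.mul_rpow (by positivity) (by positivity)]
    refine Real.rpow_le_rpow (by positivity) ?_ hb0
    nlinarith
  have h5 : K * n ^ β ≤ c₁ / 6 * N ^ v := by
    calc K * n ^ β ≤ (K + 1) * (C₉ ^ |β| * 2 ^ |β| * Real.log N ^ |β| * N ^ β) := by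
          have : n ^ β ≤ C₉ ^ |β| * 2 ^ |β| * Real.log N ^ |β| * N ^ β := h3.trans (by gcongr)
          have h0 : 0 ≤ n ^ β := by positivity
          calc K * n ^ β ≤ (K + 1) * n ^ β := by nlinarith
            _ ≤ _ := by gcongr
      _ ≤ (K + 1) * (C₉ ^ |β| * 2 ^ |β| * (c₁ / 6 / ((K + 1) * C₉ ^ |β| * 2 ^ |β|) * N ^ (v - β)) *
            N ^ β) := by gcongr
      _ = c₁ / 6 * (N ^ (v - β) * N ^ β) := by
          have : (K + 1) * C₉ ^ |β| * 2 ^ |β| ≠ 0 := by positivity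
          field_simp
      _ = c₁ / 6 * N ^ v := by rw [← Real.rpow_add hpos]; congr 2; ring
  rw [le_div_iff₀ (by norm_num), le_div_iff₀ hnpos]
  have e1 : n ^ β = n ^ α * n := by rw [hβ, Real.rpow_add hnpos, Real.rpow_one]
  rw [e1] at h5
  nlinarith

/-- scaling of the window -/
lemma window_scale (hTcd : StTcd) (m : ℕ) (H : ℂ → ℂ) (hH : DifferentiableOn ℂ H (ball 0 1))
    (n : ℕ) (ω : ℝ) (hω : 0 ≤ ω)
    (hwin : ∀ c : Fin (m + 1) → ℂ, (∀ k, ‖c k‖ ≤ 1) → (∃ k, ‖c k‖ = 1) →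
      ∃ i ≤ m, ω ≤ ‖∑ k : Fin (m + 1), c k * tc H (n + i + k)‖)
    (r₃ : ℝ) (h0 : 0 < r₃) (h1 : r₃ ≤ 1) (h2 : 1 / 2 ≤ r₃ ^ (n + 2 * m)) :
    ∀ c : Fin (m + 1) → ℂ, (∀ k, ‖c k‖ ≤ 1) → (∃ k, ‖c k‖ = 1) →
      ∃ i ≤ m, ω / 2 ≤ ‖∑ k : Fin (m + 1), c k * tc (fun z => H (r₃ * z)) (n + i + k)‖ := by
  intro c hc ⟨k₁, hk₁⟩
  set b : Fin (m + 1) → ℂ := fun k => c k * (r₃ : ℂ) ^ (k : ℕ) with hb
  obtain ⟨k₀, hk₀⟩ := Finite.exists_max (fun k => ‖b k‖)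
  set lam : ℝ := ‖b k₀‖ with hlam
  have hnr : ∀ k : ℕ, ‖(r₃ : ℂ) ^ k‖ = r₃ ^ k := fun k => by
    rw [norm_pow, Complex.norm_of_nonneg h0.le]
  have hlam1 : r₃ ^ m ≤ lam := by
    refine le_trans ?_ (hk₀ k₁)
    rw [hb]; dsimp only
    rw [norm_mul, hk₁, one_mul, hnr]
    exact pow_le_pow_of_le_one h0.le h1 (Nat.lt_succ_iff.mp k₁.2)
  have hlam0 : 0 < lam := lt_of_lt_of_le (by positivity) hlam1
  obtain ⟨i, hi, hi2⟩ := hwin (fun k => b k / lam)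
    (fun k => by
      rw [norm_div, Complex.norm_of_nonneg hlam0.le, div_le_one hlam0]; exact hk₀ k)
    ⟨k₀, by rw [norm_div, Complex.norm_of_nonneg hlam0.le, ← hlam, div_self hlam0.ne']⟩
  refine ⟨i, hi, ?_⟩
  have e1 : ∑ k : Fin (m + 1), c k * tc (fun z => H (r₃ * z)) (n + i + k) =
      (r₃ : ℂ) ^ (n + i) * lam * ∑ k : Fin (m + 1), b k / lam * tc H (n + i + k) := by
    rw [Finset.mul_sum]
    refine Finset.sum_congr rfl (fun k _ => ?_)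
    rw [hTcd.2.1 H r₃ _ h0 h1 hH, hb]
    have : (lam : ℂ) ≠ 0 := by exact_mod_cast hlam0.ne'
    dsimp only
    rw [pow_add _ (n + i) (k : ℕ)]
    field_simp
  rw [e1, norm_mul, norm_mul, hnr, Complex.norm_of_nonneg hlam0.le]
  calc ω / 2 = 1 / 2 * ω := by ring
    _ ≤ r₃ ^ (n + 2 * m) * ω := by gcongr
    _ ≤ (r₃ ^ (n + i) * r₃ ^ m) * ω := by
        rw [← pow_add]
        refine mul_le_mul_of_nonneg_right (pow_le_pow_of_le_one h0.le h1 (by omega)) hω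
    _ ≤ r₃ ^ (n + i) * lam * ‖∑ k : Fin (m + 1), b k / lam * tc H (n + i + k)‖ := by gcongr

lemma exp_half {σ : ℝ} (h0 : 0 ≤ σ) (h1 : σ ≤ 1) : σ / 2 ≤ 1 - Real.exp (-σ) := by
  have h2 : Real.exp (-σ) ≤ 1 / (1 + σ) := by
    rw [Real.exp_neg, ← one_div]
    exact one_div_le_one_div_of_le (by linarith) (by linarith [Real.add_one_le_exp σ])
  have h3 : 1 / (1 + σ) ≤ 1 - σ / 2 := by
    rw [div_le_iff₀ (by linarith)]; nlinarith
  linarith

/-- the function `G` -/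
lemma un_G {F : ℂ → ℂ} (hF : Un F (ball 0 1)) (σ : ℝ) :
    Un (fun z => F ((Real.exp (-σ) : ℂ) * z)) (ball 0 (1 + σ)) := by
  have hw0 : 0 < Real.exp (-σ) := Real.exp_pos _
  have hw1 : Real.exp (-σ) * (1 + σ) ≤ 1 := by
    rw [Real.exp_neg, ← div_eq_inv_mul, div_le_one (Real.exp_pos _)]
    linarith [Real.add_one_le_exp σ]
  have hmap : ∀ z ∈ ball (0 : ℂ) (1 + σ), (Real.exp (-σ) : ℂ) * z ∈ ball (0 : ℂ) 1 := by
    intro z hz
    rw [mem_ball_zero_iff] at hz ⊢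
    rw [norm_mul, Complex.norm_of_nonneg hw0.le]
    calc _ < Real.exp (-σ) * (1 + σ) := by gcongr
      _ ≤ 1 := hw1
  constructor
  · refine hF.1.comp ?_ hmap
    exact (differentiable_id.const_mul _).differentiableOn
  · intro z hz z' hz' h
    have h1 := hF.2 (hmap z hz) (hmap z' hz') h
    have : (Real.exp (-σ) : ℂ) ≠ 0 := by exact_mod_cast hw0.ne'
    exact mul_left_cancel₀ this h1

lemma deriv_G (F : ℂ → ℂ) (w : ℝ) (z : ℂ) :
    deriv (fun z => F ((w : ℂ) * z)) z = w * deriv F (w * z) := by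
  rw [deriv_comp_mul_left (w : ℂ) F z, smul_eq_mul]

lemma norm_deriv_G_le (hD2 : StD2) {F : ℂ → ℂ} (hF : Un F (ball 0 1)) {σ : ℝ} (hσ : 0 < σ)
    (hσ1 : σ ≤ 1) {z : ℂ} (hz : ‖z‖ = 1) :
    ‖deriv (fun z => F ((Real.exp (-σ) : ℂ) * z)) z‖ ≤ ‖deriv F 0‖ * (2 / σ) ^ 4 := by
  have hw0 : 0 < Real.exp (-σ) := Real.exp_pos _
  have hw1 : Real.exp (-σ) < 1 := by rw [Real.exp_lt_one_iff]; linarith
  have hnw : ‖(Real.exp (-σ) : ℂ) * z‖ = Real.exp (-σ) := by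
    rw [norm_mul, hz, mul_one, Complex.norm_of_nonneg hw0.le]
  rw [deriv_G, norm_mul, Complex.norm_of_nonneg hw0.le]
  have h1 := (hD2 F 1 ((Real.exp (-σ) : ℂ) * z) 0 one_pos hF (by rw [hnw]; exact hw1) le_rfl
    zero_le_one).2
  rw [hnw, zero_mul, sub_zero, one_pow, one_mul, ofReal_zero, zero_mul] at h1
  have h2 := exp_half hσ.le hσ1
  have h3 : (σ / 2) ^ 4 * ‖deriv F ((Real.exp (-σ) : ℂ) * z)‖ ≤ ‖deriv F 0‖ :=
    le_trans (by gcongr) h1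
  have h4 : ‖deriv F ((Real.exp (-σ) : ℂ) * z)‖ ≤ ‖deriv F 0‖ * (2 / σ) ^ 4 := by
    have e1 : (2 / σ) ^ 4 = ((σ / 2) ^ 4)⁻¹ := by rw [← inv_pow, inv_div]
    rw [e1, ← div_eq_mul_inv, le_div_iff₀ (by positivity)]
    linarith
  calc _ ≤ 1 * ‖deriv F ((Real.exp (-σ) : ℂ) * z)‖ := by gcongr
    _ ≤ _ := by rw [one_mul]; exact h4

lemma int_G (F : ℂ → ℂ) {σ : ℝ} (hσ1 : σ ≤ 1) (a b : ℝ) {V : ℝ} (hV : 0 ≤ V)
    (h : V ≤ ∫ ω in a..b, ‖deriv F (exp (-(σ : ℂ) + ω * I))‖) :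
    V / 3 ≤ ∫ t in a..b, ‖deriv (fun z => F ((Real.exp (-σ) : ℂ) * z)) (exp (t * I))‖ := by
  have hw0 : 0 < Real.exp (-σ) := Real.exp_pos _
  have e1 : ∀ t : ℝ, ‖deriv (fun z => F ((Real.exp (-σ) : ℂ) * z)) (exp (t * I))‖ =
      Real.exp (-σ) * ‖deriv F (exp (-(σ : ℂ) + t * I))‖ := by
    intro t
    rw [deriv_G, norm_mul, Complex.norm_of_nonneg hw0.le, Complex.exp_add, Complex.ofReal_exp,
      Complex.ofReal_neg]
  simp_rw [e1]
  rw [intervalIntegral.integral_const_mul]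
  have h3 : (1 : ℝ) / 3 ≤ Real.exp (-σ) := by
    rw [Real.exp_neg, one_div]
    refine inv_anti₀ (Real.exp_pos _) ?_
    calc Real.exp σ ≤ Real.exp 1 := Real.exp_le_exp.mpr hσ1
      _ ≤ 3 := by linarith [Real.exp_one_lt_d9]
  calc V / 3 = 1 / 3 * V := by ring
    _ ≤ Real.exp (-σ) * ∫ ω in a..b, ‖deriv F (exp (-(σ : ℂ) + ω * I))‖ := by gcongr

end Pool.Agent.Helper77.SR
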